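import Pool.Agent.H77.Q.Defs
import Pool.Agent.H6.P4.Side

set_option autoImplicit false

/-!
Rooted codes with sides (MP_a46c6f_co, full Q1): the interface in terms of first coordinates, the
kernel, the inverse of the reduced Laplacian.
-/

namespace Pool.Agent.H80.RS

open Pool.Agent.H98.Code Pool.Agent.H17.TR Pool.Agent.H6.P4 Pool.Agent.H77.Q

section
variable {V : Type} [Fintype V] [DecidableEq V] {L : Submodule (ZMod 2) (V → K)}
  {H : V → V → ZMod 2} {e : V} {S : (V → K) → Finset V → Prop}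

open Classical in
/-- every nonzero value is seen by an irreducible part -/
theorem exists_irr (v0 : V) : ∀ n : ℕ, ∀ k : V → K, k ∈ L → k v0 ≠ 0 →
    (Finset.univ.filter fun v => k v ≠ 0).card = n →
    ∃ d ∈ L, (∀ v, d v = 0 ∨ d v = k v) ∧ d v0 ≠ 0 ∧ Irr L d := by
  intro n
  induction n using Nat.strong_induction_on with
  | _ n ih =>
    intro k hk h0 hn
    by_cases hI : Irr L k
    · exact ⟨k, hk, fun v => Or.inr rfl, h0, hI⟩
    · unfold Irr at hI
      push Not at hI
      obtain ⟨d, hd, hle, hd0, hdk⟩ := hI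
      have hsub : ∀ d' ∈ L, (∀ v, d' v = 0 ∨ d' v = k v) → d' ≠ k → d' v0 ≠ 0 →
          ∃ c ∈ L, (∀ v, c v = 0 ∨ c v = k v) ∧ c v0 ≠ 0 ∧ Irr L c := by
        intro d' hd' hle' hne h0'
        have hlt : (Finset.univ.filter fun v => d' v ≠ 0).card < n := by
          rw [← hn]
          apply Finset.card_lt_card
          rw [Finset.ssubset_iff_of_subset]
          · obtain ⟨v, hv⟩ := Function.ne_iff.1 hne
            refine ⟨v, ?_, ?_⟩
            · rw [Finset.mem_filter]
              refine ⟨Finset.mem_univ _, fun h => ?_⟩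
              rcases hle' v with h1 | h1
              · exact hv (h1.trans h.symm)
              · exact hv h1
            · rw [Finset.mem_filter, not_and_not_right]
              intro _
              rcases hle' v with h1 | h1
              · exact h1
              · exact absurd h1 hv
          · intro v hv
            rw [Finset.mem_filter] at hv ⊢
            refine ⟨Finset.mem_univ _, fun h => hv.2 ?_⟩
            rcases hle' v with h1 | h1
            · exact h1
            · rw [h1, h]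
        obtain ⟨c, hc, hcle, hc0, hcI⟩ := ih _ hlt d' hd' h0' rfl
        refine ⟨c, hc, fun v => ?_, hc0, hcI⟩
        rcases hcle v with h | h
        · exact Or.inl h
        · rw [h]
          exact hle' v
      by_cases h1 : d v0 = 0
      · apply hsub (k + d) (L.add_mem hk hd)
        · intro v
          rw [Pi.add_apply]
          rcases hle v with h2 | h2
          · rw [h2, add_zero]
            exact Or.inr rfl
          · rw [h2, k_add_self]
            exact Or.inl rfl
        · intro h2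
          apply hd0
          have h3 : k + (k + d) = k + k := by rw [h2]
          rw [← add_assoc, w_add_self, zero_add] at h3
          exact h3
        · rw [Pi.add_apply, h1, add_zero]
          exact h0
      · exact hsub d hd hle hdk h1

theorem wd_eq_iff (f g : V → ZMod 2) (v : V) :
    wd H f v = wd H g v ↔ f v = g v ∧ Lap H f v = Lap H g v := by
  constructor
  · intro h
    have h1 : f v = g v := congrArg Prod.fst h
    refine ⟨h1, ?_⟩
    rw [lap_wd H f v, lap_wd H g v, h]
  · rintro ⟨h1, h2⟩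
    apply Prod.ext
    · exact h1
    · have h3 := lap_eq H f v
      have h4 := lap_eq H g v
      rw [h2, h4, h1] at h3
      exact (add_left_cancel h3).symm

theorem wd_zero_iff (f : V → ZMod 2) (v : V) : wd H f v = 0 ↔ f v = 0 ∧ Lap H f v = 0 :=
  ⟨lap_of_zero, fun h => zero_of_lap h.1 h.2⟩

theorem le_iff {s f : V → ZMod 2} {v : V} (hs : s v = 1) :
    (wd H f v = 0 ∨ wd H f v = wd H s v) ↔ Lap H f v = Lap H s v * f v := by
  rw [wd_zero_iff, wd_eq_iff, hs]
  generalize Lap H f v = A
  generalize Lap H s v = B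
  generalize f v = C
  revert A B C
  decide

theorem ne_zero_of_wd {s : V → ZMod 2} (hz : ∀ v, s v = 0 → Lap H s v = 0) {v : V}
    (h : wd H s v ≠ 0) : s v = 1 := by
  by_contra h1
  have h2 : s v = 0 := by
    revert h1
    generalize s v = A
    revert A
    decide
  exact h ((wd_zero_iff s v).2 ⟨h2, hz v h2⟩)

theorem wd_ne_zero {s : V → ZMod 2} {v : V} (h : s v = 1) : wd H s v ≠ 0 := by
  intro h1
  rw [(lap_of_zero h1).1] at h
  exact zero_ne_one h

theorem zfree_wd {s : V → ZMod 2} (hz : ∀ v, s v = 0 → Lap H s v = 0) : ZFree (wd H s) := by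
  intro v hv
  have h3 := lap_of_z hv
  rw [hz v h3.1] at h3
  exact absurd h3.2 (by decide)

theorem wd_ne {s : V → ZMod 2} (hs : s ≠ 0) : wd H s ≠ 0 := by
  intro h
  apply hs
  funext v
  exact congrArg Prod.fst (congrFun h v)

/-- the data of a splitting -/
structure SplitF (H : V → V → ZMod 2) (s : V → ZMod 2) (g : V) (f : V → ZMod 2) : Prop where
  fg : f g = 0
  lg : Lap H f g = 1
  sg : s g = 0
  or : ∀ v, v ≠ g → (f v = 0 ∧ Lap H f v = 0) ∨ (f v = s v ∧ Lap H f v = Lap H s v)

theorem split_f (hH : IsMat L H) {s : V → ZMod 2} {g : V} (h : Splits L (wd H s) g) :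
    ∃ f, SplitF H s g f := by
  obtain ⟨c₁, hc₁, c₂, hc₂, hs, hg1, hg2, hd⟩ := h
  have e1 := eq_wd hH hc₁
  refine ⟨fun v => (c₁ v).1, ?_, ?_, ?_, ?_⟩
  · show (c₁ g).1 = 0
    rw [hg1]
    rfl
  · have h1 : wd H (fun v => (c₁ v).1) g = z := by rw [← e1]; exact hg1
    exact (lap_of_z h1).2
  · have h1 := congrArg Prod.fst (congrFun hs g)
    rw [Pi.add_apply, hg1, hg2] at h1
    exact h1.symm
  · intro v hv
    rcases hd v hv with h1 | h1
    · left
      have h2 : wd H (fun v => (c₁ v).1) v = 0 := by rw [← e1]; exact h1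
      exact lap_of_zero h2
    · right
      refine (wd_eq_iff (fun v => (c₁ v).1) s v).1 ?_
      rw [← e1, ← hs, Pi.add_apply, h1, add_zero]

theorem root_f {s : V → ZMod 2} {g : V} {f : V → ZMod 2} (h : SplitF H s g f) (hs : s e = 0) :
    f e = 0 := by
  by_cases he : e = g
  · rw [he]
    exact h.fg
  · rcases h.or e he with h1 | h1
    · exact h1.1
    · rw [h1.1, hs]

theorem irr_f (hH : IsMat L H) {s : V → ZMod 2} (hz : ∀ v, s v = 0 → Lap H s v = 0)
    (h : ∀ f : V → ZMod 2, (∀ v, s v = 0 → f v = 0 ∧ Lap H f v = 0) →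
      (∀ v, s v = 1 → Lap H f v = Lap H s v * f v) → f = 0 ∨ f = s) : Irr L (wd H s) := by
  intro d hd hle
  have e1 := eq_wd hH hd
  have key := h (fun v => (d v).1) (by
    intro v hv
    refine (wd_zero_iff (fun v => (d v).1) v).1 ?_
    rw [← e1]
    rcases hle v with h2 | h2
    · exact h2
    · rw [h2]
      exact (wd_zero_iff _ v).2 ⟨hv, hz v hv⟩) (by
    intro v hv
    refine (le_iff (f := fun v => (d v).1) hv).1 ?_
    rw [← e1]
    exact hle v)
  rcases key with h1 | h1
  · left
    rw [e1, h1]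
    funext v
    exact (wd_zero_iff _ v).2 ⟨rfl, by
      unfold Lap
      exact Finset.sum_eq_zero fun w _ => by simp⟩
  · right
    rw [e1, h1]

theorem part_f (hH : IsMat L H) (hR : RSides L e S) {s : V → ZMod 2} {Y : Finset V}
    (hS : S (wd H s) Y) (hz : ∀ v, s v = 0 → Lap H s v = 0) (f : V → ZMod 2)
    (hle : ∀ v, s v = 1 → Lap H f v = Lap H s v * f v) :
    ∃ f' : V → ZMod 2, (∀ v ∈ Y, f' v = f v ∧ Lap H f' v = Lap H f v) ∧
      (∀ v, s v = 0 → v ∉ Y → f' v = 0 ∧ Lap H f' v = 0) ∧
      (∀ v, s v = 1 → Lap H f' v = Lap H s v * f' v) := by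
  obtain ⟨k', hk', h1, h2, h3⟩ := hR.part _ _ hS (wd H f) (wd_mem hH f) (fun v hv =>
    (le_iff (ne_zero_of_wd hz hv)).2 (hle v (ne_zero_of_wd hz hv)))
  have e1 := eq_wd hH hk'
  refine ⟨fun v => (k' v).1, ?_, ?_, ?_⟩
  · intro v hv
    refine (wd_eq_iff (fun v => (k' v).1) f v).1 ?_
    rw [← e1]
    exact h1 v hv
  · intro v hv hvY
    refine (wd_zero_iff (fun v => (k' v).1) v).1 ?_
    rw [← e1]
    exact h2 v ((wd_zero_iff _ v).2 ⟨hv, hz v hv⟩) hvY
  · intro v hv
    refine (le_iff (f := fun v => (k' v).1) hv).1 ?_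
    rw [← e1]
    exact h3 v (wd_ne_zero hv)

theorem zero_f (hR : RSides L e S) {s : V → ZMod 2} {Y : Finset V}
    (hS : S (wd H s) Y) {v : V} (hv : v ∈ Y) : s v = 0 :=
  (lap_of_zero (hR.zero _ _ hS v hv)).1

theorem mono_f (hH : IsMat L H) (hR : RSides L e S) {s : V → ZMod 2} {Y : Finset V}
    (hS : S (wd H s) Y) (hz : ∀ v, s v = 0 → Lap H s v = 0) (hI : Irr L (wd H s))
    (f : V → ZMod 2) (hf0 : f ≠ 0) (hzf : ∀ v, f v = 0 → Lap H f v = 0) (hIf : Irr L (wd H f))
    (hle : ∀ v, s v = 1 → Lap H f v = Lap H s v * f v) (hout : ∀ v, s v = 0 → v ∉ Y → f v = 0) :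
    (∃ g f₁, SplitF H f g f₁) ∨ ∃ Y', Y' ⊆ Y ∧ Y'.Nonempty ∧ S (wd H f) Y' := by
  rcases hR.mono _ _ hS hI (wd H f) (wd_mem hH f) (zfree_wd hzf) (wd_ne hf0) hIf
    (fun v hv => (le_iff (ne_zero_of_wd hz hv)).2 (hle v (ne_zero_of_wd hz hv)))
    (fun v hv hvY => by
      have h1 := hout v (lap_of_zero hv).1 hvY
      exact (wd_zero_iff _ v).2 ⟨h1, hzf v h1⟩) with h | h
  · obtain ⟨g, hg⟩ := h
    obtain ⟨f₁, h1⟩ := split_f hH hg
    exact Or.inl ⟨g, f₁, h1⟩
  · exact Or.inr h

theorem ex_f (hH : IsMat L H) (hR : RSides L e S) {s : V → ZMod 2}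
    (hz : ∀ v, s v = 0 → Lap H s v = 0) (hI : Irr L (wd H s)) (hs0 : s ≠ 0) (hse : s e = 0) :
    (∃ g f₁, SplitF H s g f₁) ∨ ∃ Y : Finset V, Y.Nonempty ∧ S (wd H s) Y := by
  rcases hR.ex (wd H s) (wd_mem hH s) (zfree_wd hz) ((wd_zero_iff _ e).2 ⟨hse, hz e hse⟩)
    (wd_ne hs0) hI with h | h
  · obtain ⟨g, hg⟩ := h
    obtain ⟨f₁, h1⟩ := split_f hH hg
    exact Or.inl ⟨g, f₁, h1⟩
  · exact Or.inr h

/-- kernel words do not split -/
theorem ker_not_split (hs : ∀ u v, H u v = H v u) {s : V → ZMod 2} (hl : ∀ v, Lap H s v = 0)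
    {g : V} {f : V → ZMod 2} (h : SplitF H s g f) : False := by
  have h1 := sum_lap hs f
  rw [Fintype.sum_eq_single g] at h1
  · rw [h.lg] at h1
    exact one_ne_zero h1
  · intro v hv
    rcases h.or v hv with h2 | h2
    · exact h2.2
    · rw [h2.2, hl]

/-- **the kernel is zero** -/
theorem ker_zero (hH : IsMat L H) (hR : RSides L e S) (f : V → ZMod 2) (he : f e = 0)
    (hf : ∀ v, Lap H f v = 0) : f = 0 := by
  classical
  by_contra hf0
  -- a side
  have hex : ∃ n : ℕ, ∃ s : V → ZMod 2, ∃ Y : Finset V, s e = 0 ∧ (∀ v, Lap H s v = 0) ∧ s ≠ 0 ∧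
      Irr L (wd H s) ∧ S (wd H s) Y ∧ Y.Nonempty ∧ Y.card = n := by
    obtain ⟨v0, hv0⟩ := Function.ne_iff.1 hf0
    have h0 : wd H f v0 ≠ 0 := by
      intro h
      exact hv0 (lap_of_zero h).1
    obtain ⟨d, hd, hle, hd0, hI⟩ := exists_irr v0 _ (wd H f) (wd_mem hH f) h0 rfl
    have e1 := eq_wd hH hd
    rw [e1] at hI hd0
    have hv : ∀ v, wd H (fun v => (d v).1) v = 0 ∨ wd H (fun v => (d v).1) v = wd H f v := by
      intro v
      rw [← e1]
      exact hle v
    have hlap : ∀ v, Lap H (fun v => (d v).1) v = 0 := by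
      intro v
      rcases hv v with h1 | h1
      · exact (lap_of_zero h1).2
      · rw [((wd_eq_iff _ _ v).1 h1).2, hf]
    have hde : (fun v => (d v).1) e = 0 := by
      rcases hv e with h1 | h1
      · exact (lap_of_zero h1).1
      · exact ((wd_eq_iff _ _ e).1 h1).1.trans he
    have hne : (fun v => (d v).1) ≠ 0 := by
      intro h1
      apply hd0
      exact (wd_zero_iff _ v0).2 ⟨congrFun h1 v0, hlap v0⟩
    rcases ex_f hH hR (fun v _ => hlap v) hI hne hde with h1 | h1
    · obtain ⟨g, f₁, h1⟩ := h1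
      exact (ker_not_split hH.sym hlap h1).elim
    · obtain ⟨Y, hY, hS⟩ := h1
      exact ⟨_, _, Y, hde, hlap, hne, hI, hS, hY, rfl⟩
  have hmin := fun (m : ℕ) (hm : m < Nat.find hex) => Nat.find_min hex hm
  obtain ⟨s, Y, hse, hsl, hs0, hI, hS, hY, hcard⟩ := Nat.find_spec hex
  have hone : ∀ v, Lap H (fun _ => (1 : ZMod 2)) v = 0 := by
    intro v
    unfold Lap
    refine Finset.sum_eq_zero fun w _ => ?_
    rw [show (1 : ZMod 2) + 1 = 0 from by decide, mul_zero]
  obtain ⟨f', h1, h2, h3⟩ := part_f hH hR hS (fun v _ => hsl v) (fun _ => 1) (by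
    intro v _
    rw [hone, hsl, zero_mul])
  have hf'l : ∀ v, Lap H f' v = 0 := by
    intro v
    by_cases hv : v ∈ Y
    · rw [(h1 v hv).2, hone]
    · by_cases hsv : s v = 1
      · rw [h3 v hsv, hsl, zero_mul]
      · have : s v = 0 := by
          revert hsv
          generalize s v = A
          revert A
          decide
        exact (h2 v this hv).2
  have hf'e : f' e = 0 := (h2 e hse (hR.root _ _ hS)).1
  obtain ⟨v0, hv0⟩ := hY
  have h0 : wd H f' v0 ≠ 0 := wd_ne_zero (h1 v0 hv0).1
  obtain ⟨d, hd, hle, hd0, hI'⟩ := exists_irr v0 _ (wd H f') (wd_mem hH f') h0 rfl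
  have e1 := eq_wd hH hd
  rw [e1] at hI' hd0
  have hv : ∀ v, wd H (fun v => (d v).1) v = 0 ∨ wd H (fun v => (d v).1) v = wd H f' v := by
    intro v
    rw [← e1]
    exact hle v
  have hlap : ∀ v, Lap H (fun v => (d v).1) v = 0 := by
    intro v
    rcases hv v with h1 | h1
    · exact (lap_of_zero h1).2
    · rw [((wd_eq_iff _ _ v).1 h1).2, hf'l]
  have hout : ∀ v, f' v = 0 → (fun v => (d v).1) v = 0 := by
    intro v hv'
    rcases hv v with h1 | h1
    · exact (lap_of_zero h1).1
    · exact ((wd_eq_iff _ _ v).1 h1).1.trans hv'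
  have hne : (fun v => (d v).1) ≠ 0 := by
    intro h1
    apply hd0
    exact (wd_zero_iff _ v0).2 ⟨congrFun h1 v0, hlap v0⟩
  rcases mono_f hH hR hS (fun v _ => hsl v) hI (fun v => (d v).1) hne (fun v _ => hlap v) hI' (by
    intro v _
    rw [hlap, hsl, zero_mul]) (by
    intro v hv1 hv2
    exact hout v (h2 v hv1 hv2).1) with h4 | h4
  · obtain ⟨g, f₁, h4⟩ := h4
    exact ker_not_split hH.sym hlap h4
  · obtain ⟨Y', hYY, hY', hS'⟩ := h4
    have hlt : Y'.card < Nat.find hex := by
      rw [← hcard]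
      apply Finset.card_lt_card
      rw [Finset.ssubset_iff_of_subset hYY]
      refine ⟨v0, hv0, fun h5 => ?_⟩
      apply hd0
      exact (wd_zero_iff _ v0).2 ⟨zero_f hR hS' h5, hlap v0⟩
    exact hmin _ hlt ⟨_, Y', hout e hf'e, hlap, hne, hI', hS', hY', rfl⟩

/-- the inverse of the reduced Laplacian -/
theorem exists_inv (hs : ∀ u v, H u v = H v u)
    (hker : ∀ f : V → ZMod 2, f e = 0 → (∀ v, Lap H f v = 0) → f = 0) :
    ∃ M : V → V → ZMod 2, (∀ x, M x e = 0) ∧
      ∀ x v, Lap H (M x) v = (if v = x then 1 else 0) + (if v = e then 1 else 0) := by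
  set R : (V → ZMod 2) →+ (V → ZMod 2) :=
    { toFun := fun f v => if v = e then f e else Lap H f v
      map_zero' := by
        funext v
        by_cases hv : v = e
        · simp [hv]
        · simp [hv, Lap]
      map_add' := by
        intro f g
        funext v
        by_cases hv : v = e
        · simp [hv]
        · simp [hv, lap_add] } with hR
  have hval : ∀ f v, R f v = if v = e then f e else Lap H f v := fun f v => rfl
  have hinj : Function.Injective R := by
    rw [injective_iff_map_eq_zero]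
    intro f hf
    have h1 : f e = 0 := by
      have h1 := congrFun hf e
      rw [hval, if_pos rfl] at h1
      exact h1
    have h2 : ∀ v, v ≠ e → Lap H f v = 0 := by
      intro v hv
      have h1 := congrFun hf v
      rw [hval, if_neg hv] at h1
      exact h1
    apply hker f h1
    intro v
    by_cases hv : v = e
    · have h3 := sum_lap hs f
      rw [Fintype.sum_eq_single e h2] at h3
      rw [hv, h3]
    · exact h2 v hv
  have hsur : Function.Surjective R := Finite.injective_iff_surjective.1 hinj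
  choose M hM using fun x : V => hsur (fun v => if v = e then 0 else if v = x then 1 else 0)
  have h0 : ∀ x, M x e = 0 := by
    intro x
    have h1 := congrFun (hM x) e
    rw [hval, if_pos rfl, if_pos rfl] at h1
    exact h1
  have h1 : ∀ x v, v ≠ e → Lap H (M x) v = if v = x then 1 else 0 := by
    intro x v hv
    have h2 := congrFun (hM x) v
    rw [hval, if_neg hv, if_neg hv] at h2
    exact h2
  refine ⟨M, h0, fun x v => ?_⟩
  by_cases hv : v = e
  · subst hv
    have h2 := sum_lap hs (M x)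
    rw [Fintype.sum_eq_add_sum_subtype_ne _ v] at h2
    have h3 : ∑ i : {w // w ≠ v}, Lap H (M x) i.1 = ∑ i : {w // w ≠ v}, if i.1 = x then 1 else 0 :=
      Finset.sum_congr rfl fun i _ => h1 x i.1 i.2
    have h4 : ∑ w, (if w = x then (1 : ZMod 2) else 0) = 1 := by
      rw [Finset.sum_ite_eq' Finset.univ x, if_pos (Finset.mem_univ x)]
    rw [Fintype.sum_eq_add_sum_subtype_ne _ v, ← h3] at h4
    rw [if_pos rfl]
    revert h2 h4
    generalize Lap H (M x) v = A
    generalize (∑ i : {w // w ≠ v}, Lap H (M x) i.1) = B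
    generalize (if v = x then (1 : ZMod 2) else 0) = C
    revert A B C
    decide
  · rw [h1 x v hv, if_neg hv, add_zero]

end

end Pool.Agent.H80.RS
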