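import Pool.Agent.H80.RS.Basic
import Pool.Agent.H97.Q.Mat

set_option autoImplicit false

/-!
Rooted codes with sides (MP_a46c6f_co, full Q1): pairs and paths.
-/

namespace Pool.Agent.H80.RS

open Pool.Agent.H98.Code Pool.Agent.H17.TR Pool.Agent.H6.P4 Pool.Agent.H77.Q
open Pool.Agent.H17.P3 Pool.Agent.H97.Q

section
variable {V : Type} [Fintype V] [DecidableEq V] {L : Submodule (ZMod 2) (V → K)}
  {H : V → V → ZMod 2} {e : V} {S : (V → K) → Finset V → Prop} {M : V → V → ZMod 2}

/-- the properties of a good set -/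
structure GF (M : V → V → ZMod 2) (T : Finset V) : Prop where
  card : ((T.card : ℕ) : ZMod 2) = 0
  one : ∀ v ∈ T, ∑ x ∈ T, M x v = 1
  ne : T.Nonempty
  irr : ∀ α : V → ZMod 2, (∀ w ∈ T, ∑ x ∈ T, α x * M x w = α w) → ∑ x ∈ T, α x = 0 →
    (∀ x ∈ T, α x = 0) ∨ (∀ x ∈ T, α x = 1)

omit [Fintype V] in
theorem gf_pair (hs : ∀ x y, M x y = M y x) {u v : V} (h : CP M u v) : GF M {u, v} := by
  have hne := h.ne
  obtain ⟨h1, h2⟩ := h
  refine ⟨?_, ?_, ⟨u, by simp⟩, ?_⟩
  · rw [Finset.card_pair hne]
    decide
  · intro w hw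
    rw [Finset.sum_pair hne]
    rw [Finset.mem_insert, Finset.mem_singleton] at hw
    rcases hw with rfl | rfl
    · rw [hs v w]
      revert h2
      generalize M w w = A
      generalize M w v = B
      revert A B
      decide
    · rw [← h1]
      revert h2
      generalize M u u = A
      generalize M u w = B
      revert A B
      decide
  · intro α _ h3
    rw [Finset.sum_pair hne] at h3
    by_cases h4 : α u = 0
    · left
      intro x hx
      rw [Finset.mem_insert, Finset.mem_singleton] at hx
      rw [h4, zero_add] at h3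
      rcases hx with rfl | rfl
      · exact h4
      · exact h3
    · right
      have h5 : α u = 1 := by
        revert h4
        generalize α u = A
        revert A
        decide
      have h6 : α v = 1 := by
        revert h3
        rw [h5]
        generalize α v = A
        revert A
        decide
      intro x hx
      rw [Finset.mem_insert, Finset.mem_singleton] at hx
      rcases hx with rfl | rfl
      · exact h5
      · exact h6

/-- the data of a path with the colours `0110` -/
structure P4F (M : V → V → ZMod 2) (a b c d : V) : Prop where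
  nab : a ≠ b
  nac : a ≠ c
  nad : a ≠ d
  nbc : b ≠ c
  nbd : b ≠ d
  ncd : c ≠ d
  ba : M b a = 1
  cb : M c b = 1
  dc : M d c = 1
  ca : M c a = 0
  da : M d a = 0
  db : M d b = 0

omit [Fintype V] [DecidableEq V] in
theorem p4f (hs : ∀ x y, M x y = M y x) {a b c d : V} (h : IsP4 M a b c d) (ha : M a a = 0)
    (hb : M b b = 1) (hc : M c c = 1) (hd : M d d = 0) : P4F M a b c d := by
  obtain ⟨hab, hbc, hcd, hac, had, hbd⟩ := h
  have hba : M b a = 1 := by rw [hs, hab]
  have hcb : M c b = 1 := by rw [hs, hbc]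
  have hdc : M d c = 1 := by rw [hs, hcd]
  have hca : M c a = 0 := by rw [hs, hac]
  have hda : M d a = 0 := by rw [hs, had]
  have hdb : M d b = 0 := by rw [hs, hbd]
  have h01 : (0 : ZMod 2) ≠ 1 := by decide
  refine ⟨?_, ?_, ?_, ?_, ?_, ?_, hba, hcb, hdc, hca, hda, hdb⟩
  · rintro rfl; exact h01 (ha.symm.trans hb)
  · rintro rfl; exact h01 (ha.symm.trans hc)
  · rintro rfl; exact h01 (hdb.symm.trans hab)
  · rintro rfl; exact h01 (hbd.symm.trans hcd)
  · rintro rfl; exact h01 (hd.symm.trans hb)
  · rintro rfl; exact h01 (hd.symm.trans hc)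

omit [Fintype V] in
theorem sum4 {a b c d : V} (h : P4F M a b c d) (F : V → ZMod 2) :
    ∑ x ∈ ({a, b, c, d} : Finset V), F x = F a + F b + F c + F d := by
  rw [Finset.sum_insert, Finset.sum_insert, Finset.sum_insert, Finset.sum_singleton]
  · ring
  · simp [h.ncd]
  · simp [h.nbc, h.nbd]
  · simp [h.nab, h.nac, h.nad]

omit [Fintype V] in
theorem gf_p4 (hs : ∀ x y, M x y = M y x) {a b c d : V} (h : IsP4 M a b c d) (ha : M a a = 0)
    (hb : M b b = 1) (hc : M c c = 1) (hd : M d d = 0) : GF M {a, b, c, d} := by
  have hf := p4f hs h ha hb hc hd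
  obtain ⟨hab, hbc, hcd, hac, had, hbd⟩ := h
  refine ⟨?_, ?_, ⟨a, by simp⟩, ?_⟩
  · rw [Finset.card_insert_of_notMem, Finset.card_insert_of_notMem, Finset.card_pair hf.ncd]
    · decide
    · simp [hf.nbc, hf.nbd]
    · simp [hf.nab, hf.nac, hf.nad]
  · intro w hw
    rw [sum4 hf]
    simp only [Finset.mem_insert, Finset.mem_singleton] at hw
    rcases hw with rfl | rfl | rfl | rfl
    · rw [ha, hf.ba, hf.ca, hf.da]; decide
    · rw [hab, hb, hf.cb, hf.db]; decide
    · rw [hac, hbc, hc, hf.dc]; decide
    · rw [had, hbd, hcd, hd]; decide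
  · intro α h1 h2
    have ea := h1 a (by simp)
    have eb := h1 b (by simp)
    have ec := h1 c (by simp)
    have ed := h1 d (by simp)
    rw [sum4 hf] at h2 ea eb ec ed
    rw [ha, hf.ba, hf.ca, hf.da] at ea
    rw [hab, hb, hf.cb, hf.db] at eb
    rw [hac, hbc, hc, hf.dc] at ec
    rw [had, hbd, hcd, hd] at ed
    have key : ∀ A B C D : ZMod 2, A + B + C + D = 0 → A * 0 + B * 1 + C * 0 + D * 0 = A →
        A * 1 + B * 1 + C * 1 + D * 0 = B → A * 0 + B * 1 + C * 1 + D * 1 = C →
        A * 0 + B * 0 + C * 1 + D * 0 = D → (A = 0 ∧ B = 0 ∧ C = 0 ∧ D = 0) ∨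
          (A = 1 ∧ B = 1 ∧ C = 1 ∧ D = 1) := by decide
    rcases key _ _ _ _ h2 ea eb ec ed with ⟨k1, k2, k3, k4⟩ | ⟨k1, k2, k3, k4⟩
    · left
      intro x hx
      simp only [Finset.mem_insert, Finset.mem_singleton] at hx
      rcases hx with rfl | rfl | rfl | rfl <;> assumption
    · right
      intro x hx
      simp only [Finset.mem_insert, Finset.mem_singleton] at hx
      rcases hx with rfl | rfl | rfl | rfl <;> assumption

omit [Fintype V] in
theorem gf (hs : ∀ x y, M x y = M y x) {T : Finset V} (h : Good M T) : GF M T := by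
  rcases h with ⟨u, v, h, rfl⟩ | ⟨a, b, c, d, h, ha, hb, hc, hd, rfl⟩
  · exact gf_pair hs h
  · exact gf_p4 hs h ha hb hc hd

/-- the data: code, sides, matrix -/
structure Ctx (L : Submodule (ZMod 2) (V → K)) (H : V → V → ZMod 2) (e : V)
    (S : (V → K) → Finset V → Prop) (M : V → V → ZMod 2) : Prop where
  mat : IsMat L H
  rs : RSides L e S
  h0 : ∀ x, M x e = 0
  hl : ∀ x v, Lap H (M x) v = (if v = x then 1 else 0) + (if v = e then 1 else 0)

theorem Ctx.sym (C : Ctx L H e S M) : ∀ x y, M x y = M y x := m_sym C.mat.sym C.h0 C.hl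

theorem Ctx.he (C : Ctx L H e S M) : ∀ x, M e x = 0 := fun x => by rw [C.sym, C.h0]

/-- the first coordinate of the word of `T` -/
def sw (M : V → V → ZMod 2) (T : Finset V) : V → ZMod 2 := fun v => ∑ x ∈ T, M x v

/-- the combination with the coefficients `α` -/
def cw (M : V → V → ZMod 2) (α : V → ZMod 2) (T : Finset V) : V → ZMod 2 :=
  fun v => ∑ x ∈ T, α x * M x v

theorem lap_cw (C : Ctx L H e S M) (α : V → ZMod 2) (T : Finset V) (v : V) :
    Lap H (cw M α T) v = (if v ∈ T then α v else 0) + (if v = e then ∑ x ∈ T, α x else 0) := by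
  have h1 : Lap H (cw M α T) v = ∑ x ∈ T, α x * Lap H (M x) v := by
    unfold Lap cw
    simp only [Finset.mul_sum]
    rw [Finset.sum_comm]
    refine Finset.sum_congr rfl fun w _ => ?_
    rw [← Finset.sum_add_distrib, Finset.mul_sum]
    refine Finset.sum_congr rfl fun x _ => ?_
    ring
  rw [h1]
  simp only [C.hl, mul_add, Finset.sum_add_distrib, mul_ite, mul_one, mul_zero]
  congr 1
  · rw [Finset.sum_ite_eq]
  · by_cases hv : v = e
    · simp [hv]
    · simp [hv]

omit [Fintype V] [DecidableEq V] in
theorem sw_eq (T : Finset V) : sw M T = cw M (fun _ => 1) T := by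
  funext v
  unfold sw cw
  exact Finset.sum_congr rfl fun x _ => (one_mul _).symm

theorem lap_sw (C : Ctx L H e S M) {T : Finset V} (hT : ((T.card : ℕ) : ZMod 2) = 0) (v : V) :
    Lap H (sw M T) v = if v ∈ T then 1 else 0 := by
  rw [sw_eq, lap_cw C]
  have : ∑ x ∈ T, (1 : ZMod 2) = 0 := by
    rw [Finset.sum_const, nsmul_eq_mul, mul_one, hT]
  rw [this]
  simp

/-- reconstruction -/
theorem rep (C : Ctx L H e S M) {f : V → ZMod 2} (hf : f e = 0) (W : Finset V)
    (hW : ∀ v, v ∉ W → Lap H f v = 0) :
    (∀ y, f y = ∑ v ∈ W, Lap H f v * M v y) ∧ ∑ v ∈ W, Lap H f v = 0 := by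
  constructor
  · intro y
    rw [recon C.mat.sym C.h0 C.hl f hf y]
    symm
    apply Finset.sum_subset (Finset.subset_univ _)
    intro v _ hv
    rw [hW v hv, zero_mul]
  · rw [← sum_lap C.mat.sym f]
    apply Finset.sum_subset (Finset.subset_univ _)
    intro v _ hv
    exact hW v hv

variable {T : Finset V}

theorem zf (C : Ctx L H e S M) (hT : GF M T) (v : V) (hv : sw M T v = 0) :
    Lap H (sw M T) v = 0 := by
  rw [lap_sw C hT.card, if_neg]
  intro h
  have h1 := hT.one v h
  exact zero_ne_one (hv.symm.trans h1)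

theorem e_notMem (C : Ctx L H e S M) (hT : GF M T) : e ∉ T := by
  intro h
  have h1 := hT.one e h
  rw [Finset.sum_eq_zero fun x _ => C.h0 x] at h1
  exact zero_ne_one h1

theorem sw_e (C : Ctx L H e S M) : sw M T e = 0 := Finset.sum_eq_zero fun x _ => C.h0 x

theorem sw_ne (hT : GF M T) : sw M T ≠ 0 := by
  intro h
  obtain ⟨v, hv⟩ := hT.ne
  have h1 : sw M T v = 1 := hT.one v hv
  rw [h] at h1
  exact zero_ne_one h1

theorem irr_sw (C : Ctx L H e S M) (hT : GF M T) : Irr L (wd H (sw M T)) := by
  apply irr_f C.mat (zf C hT)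
  intro f h1 h2
  have hfe : f e = 0 := (h1 e (sw_e C)).1
  have hout : ∀ v, v ∉ T → Lap H f v = 0 := by
    intro v hv
    by_cases hs : sw M T v = 0
    · exact (h1 v hs).2
    · have hs1 : sw M T v = 1 := by
        revert hs
        generalize sw M T v = A
        revert A
        decide
      rw [h2 v hs1, lap_sw C hT.card, if_neg hv, zero_mul]
  obtain ⟨r1, r2⟩ := rep C hfe T hout
  have hval : ∀ w ∈ T, Lap H f w = f w := by
    intro w hw
    rw [h2 w (hT.one w hw), lap_sw C hT.card, if_pos hw, one_mul]
  rcases hT.irr (fun x => Lap H f x) (by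
    intro w hw
    rw [← r1 w, hval w hw]) r2 with h3 | h3
  · left
    funext y
    rw [r1 y]
    exact Finset.sum_eq_zero fun x hx => by rw [h3 x hx, zero_mul]
  · right
    funext y
    rw [r1 y]
    exact Finset.sum_congr rfl fun x hx => by rw [h3 x hx, one_mul]

/-- a half of a splitting, or the part of a word with one more point -/
theorem sp_of_word (C : Ctx L H e S M) (hT : GF M T) {f : V → ZMod 2} {g : V} {Y : Finset V}
    (hfe : f e = 0) (hg : g ∉ T) (h1 : Lap H f g = 1)
    (h2 : ∀ v, v ≠ g → v ∉ T → Lap H f v = 0) (h3 : ∀ v ∈ T, Lap H f v = f v)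
    (h4 : ∀ v, sw M T v = 0 → v ∉ Y → f v = 0) : Sp M T g Y := by
  obtain ⟨r1, r2⟩ := rep C hfe (insert g T) (by
    intro v hv
    rw [Finset.mem_insert, not_or] at hv
    exact h2 v hv.1 hv.2)
  rw [Finset.sum_insert hg, h1] at r2
  have r3 : ∀ y, f y = M g y + ∑ x ∈ T, M y x * Lap H f x := by
    intro y
    rw [r1 y, Finset.sum_insert hg, h1, one_mul]
    congr 1
    exact Finset.sum_congr rfl fun x _ => by rw [C.sym x y, mul_comm]
  refine ⟨fun x => Lap H f x, ?_, ?_, ?_⟩
  · revert r2
    generalize ∑ x ∈ T, Lap H f x = A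
    revert A
    decide
  · intro w hw
    beta_reduce
    rw [h3 w hw, r3 w, C.sym w g]
    ring
  · intro w hw hwY
    have h5 := r3 w
    have h6 : sw M T w = 0 := by
      rw [← hw]
      exact Finset.sum_congr rfl fun x _ => C.sym x w
    rw [h4 w h6 hwY, C.sym g w] at h5
    rw [add_comm, ← h5]

theorem sp_of_split (C : Ctx L H e S M) (hT : GF M T) {g : V} {f : V → ZMod 2}
    (h : SplitF H (sw M T) g f) : Sp M T g ∅ := by
  have hg : g ∉ T := by
    intro hg
    have h1 := hT.one g hg
    have h2 := h.sg
    exact zero_ne_one (h2.symm.trans h1)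
  apply sp_of_word C hT (root_f h (sw_e C)) hg h.lg
  · intro v hv hvT
    rcases h.or v hv with h1 | h1
    · exact h1.2
    · rw [h1.2, lap_sw C hT.card, if_neg hvT]
  · intro v hv
    rcases h.or v (fun h0 => hg (h0 ▸ hv)) with h1 | h1
    · rw [h1.1, h1.2]
    · rw [h1.1, h1.2, lap_sw C hT.card, if_pos hv]
      exact (hT.one v hv).symm
  · intro v hv _
    by_cases hvg : v = g
    · rw [hvg]
      exact h.fg
    · rcases h.or v hvg with h1 | h1
      · exact h1.1
      · rw [h1.1, hv]

/-- the own places, when coefficients exist -/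
theorem own_of_coef (C : Ctx L H e S M) (hT : GF M T) {Y : Finset V}
    (hS : S (wd H (sw M T)) Y) {y : V} (hy : y ∈ Y) (J : V → ZMod 2)
    (hJ : ∀ w ∈ T, ∑ x ∈ T, M w x * J x + M w y = J w) : Sp M T y Y := by
  have hsy : sw M T y = 0 := zero_f C.rs hS hy
  have hyT : y ∉ T := by
    intro h
    have h1 := hT.one y h
    exact zero_ne_one (hsy.symm.trans h1)
  have hye : y ≠ e := by
    rintro rfl
    exact C.rs.root _ _ hS hy
  set f : V → ZMod 2 := M y + cw M J T with hf
  have hfv : ∀ v, f v = M y v + ∑ x ∈ T, J x * M x v := fun v => rfl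
  have hlf : ∀ v, v ≠ e → Lap H f v = (if v = y then 1 else 0) + (if v ∈ T then J v else 0) := by
    intro v hv
    rw [hf, lap_add, C.hl, lap_cw C, if_neg hv, if_neg hv, add_zero, add_zero]
  have hse : sw M T e = 0 := sw_e C
  obtain ⟨f', p1, p2, p3⟩ := part_f C.mat C.rs hS (zf C hT) f (by
    intro v hv
    have hve : v ≠ e := by
      rintro rfl
      rw [hse] at hv
      exact zero_ne_one hv
    have hvy : v ≠ y := by
      rintro rfl
      rw [hsy] at hv
      exact zero_ne_one hv
    rw [hlf v hve, if_neg hvy, zero_add, lap_sw C hT.card]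
    by_cases hvT : v ∈ T
    · rw [if_pos hvT, if_pos hvT, one_mul, hfv, ← hJ v hvT, add_comm, C.sym y v]
      congr 1
      exact Finset.sum_congr rfl fun x _ => by rw [C.sym v x, mul_comm]
    · rw [if_neg hvT, if_neg hvT, zero_mul])
  apply sp_of_word C hT (f := f') (p2 e hse (C.rs.root _ _ hS)).1 hyT
  · rw [(p1 y hy).2, hlf y hye, if_pos rfl, if_neg hyT, add_zero]
  · intro v hv hvT
    by_cases hvY : v ∈ Y
    · have hve : v ≠ e := by
        rintro rfl
        exact C.rs.root _ _ hS hvY
      rw [(p1 v hvY).2, hlf v hve, if_neg hv, if_neg hvT, add_zero]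
    · by_cases hs : sw M T v = 0
      · exact (p2 v hs hvY).2
      · have hs1 : sw M T v = 1 := by
          revert hs
          generalize sw M T v = A
          revert A
          decide
        rw [p3 v hs1, lap_sw C hT.card, if_neg hvT, zero_mul]
  · intro v hv
    rw [p3 v (hT.one v hv), lap_sw C hT.card, if_pos hv, one_mul]
  · intro v hv hvY
    exact (p2 v hv hvY).1

/-- closed pairs with loops: the own places do not see the pair -/
theorem own_loop (C : Ctx L H e S M) {u v : V} (h : CP M u v) (hu : M u u = 1) {Y : Finset V}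
    (hS : S (wd H (sw M {u, v})) Y) {y : V} (hy : y ∈ Y) : M u y = 0 := by
  have hT := gf_pair C.sym h
  have hsy : sw M {u, v} y = 0 := zero_f C.rs hS hy
  have hse : sw M {u, v} e = 0 := sw_e C
  have heT := e_notMem C hT
  have hue : u ≠ e := fun h0 => heT (by rw [← h0]; simp)
  have huv : M v u = 0 := by
    rw [C.sym v u]
    have := h.2
    rw [hu] at this
    revert this
    generalize M u v = A
    revert A
    decide
  have hyT : ∀ w ∈ Y, w ∉ ({u, v} : Finset V) := by
    intro w hw h0
    have h1 := hT.one w h0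
    exact zero_ne_one ((zero_f C.rs hS hw).symm.trans h1)
  have hlu : ∀ w, w ≠ e → Lap H (M u) w = if w = u then 1 else 0 := by
    intro w hw
    rw [C.hl, if_neg hw, add_zero]
  obtain ⟨f', p1, p2, p3⟩ := part_f C.mat C.rs hS (zf C hT) (M u) (by
    intro w hw
    have hwe : w ≠ e := by
      rintro rfl
      rw [hse] at hw
      exact zero_ne_one hw
    rw [hlu w hwe, lap_sw C hT.card]
    by_cases hwu : w = u
    · rw [hwu, if_pos rfl, if_pos (by simp), hu, one_mul]
    · rw [if_neg hwu]
      by_cases hwv : w = v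
      · rw [hwv, C.sym u v, huv, mul_zero]
      · rw [if_neg (by simp [hwu, hwv]), zero_mul])
  have hfe : f' e = 0 := (p2 e hse (C.rs.root _ _ hS)).1
  have hout : ∀ w, w ∉ ({u, v} : Finset V) → Lap H f' w = 0 := by
    intro w hw
    by_cases hwY : w ∈ Y
    · have hwe : w ≠ e := by
        rintro rfl
        exact C.rs.root _ _ hS hwY
      rw [(p1 w hwY).2, hlu w hwe, if_neg]
      intro h0
      exact hw (by rw [h0]; simp)
    · by_cases hs : sw M {u, v} w = 0
      · exact (p2 w hs hwY).2
      · have hs1 : sw M {u, v} w = 1 := by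
          revert hs
          generalize sw M {u, v} w = A
          revert A
          decide
        rw [p3 w hs1, lap_sw C hT.card, if_neg hw, zero_mul]
  obtain ⟨r1, r2⟩ := rep C hfe _ hout
  rw [Finset.sum_pair h.ne] at r2
  have h5 := r1 y
  rw [Finset.sum_pair h.ne] at h5
  have h6 : M u y + M v y = 0 := by
    have : sw M {u, v} y = M u y + M v y := Finset.sum_pair h.ne
    rw [← this, hsy]
  rw [← (p1 y hy).1, h5]
  revert r2 h6
  generalize Lap H f' u = A
  generalize Lap H f' v = B
  generalize M u y = D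
  generalize M v y = E
  revert A B D E
  decide

/-- **the matrix data** -/
theorem ms (C : Ctx L H e S M) : MS M (fun T Y => S (wd H (sw M T)) Y) := by
  refine ⟨C.sym, ?_, ?_, ?_, ?_⟩
  · intro T hg
    have hT := gf C.sym hg
    rcases ex_f C.mat C.rs (zf C hT) (irr_sw C hT) (sw_ne hT) (sw_e C) with ⟨g, f, h⟩ | h
    · exact Or.inl ⟨g, sp_of_split C hT h⟩
    · exact Or.inr h
  · intro T Y hg hS y hy
    have hT := gf C.sym hg
    have hsy : sw M T y = 0 := zero_f C.rs hS hy
    rcases hg with ⟨u, v, h, rfl⟩ | ⟨a, b, c, d, h, ha, hb, hc, hd, rfl⟩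
    · have h6 : M u y + M v y = 0 := by
        have : sw M {u, v} y = M u y + M v y := Finset.sum_pair h.ne
        rw [← this, hsy]
      have hvu : M v u = M u v := C.sym v u
      by_cases hl : M u u = 1
      · have h7 := own_loop C h hl hS hy
        apply own_of_coef C hT hS hy (fun _ => 0)
        intro w hw
        rw [Finset.mem_insert, Finset.mem_singleton] at hw
        simp only [mul_zero, Finset.sum_const_zero, zero_add]
        rcases hw with rfl | rfl
        · exact h7
        · rw [h7, zero_add] at h6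
          exact h6
      · have hl0 : M u u = 0 := by
          revert hl
          generalize M u u = A
          revert A
          decide
        have huv : M u v = 1 := by
          have := h.2
          rw [hl0] at this
          revert this
          generalize M u v = A
          revert A
          decide
        have hvv : M v v = 0 := by rw [← h.1, hl0]
        have hne := h.ne
        apply own_of_coef C hT hS hy (fun x => if x = u then M u y else 0)
        intro w hw
        rw [Finset.mem_insert, Finset.mem_singleton] at hw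
        rw [Finset.sum_pair h.ne, if_pos rfl, if_neg (Ne.symm hne), mul_zero, add_zero]
        rcases hw with rfl | rfl
        · rw [if_pos rfl, hl0, zero_mul, zero_add]
        · rw [if_neg (Ne.symm hne), hvu, huv, one_mul]
          exact h6
    · have hf := p4f C.sym h ha hb hc hd
      obtain ⟨hab, hbc, hcd, hac, had, hbd⟩ := h
      have h6 : M a y + M b y + M c y + M d y = 0 := by
        have : sw M {a, b, c, d} y = M a y + M b y + M c y + M d y := sum4 hf _
        rw [← this, hsy]
      -- (A + 1) J = m : J_a = 0, J_b = m_a, J_c = m_b, J_d = m_a + m_c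
      apply own_of_coef C hT hS hy (fun x => if x = b then M a y else if x = c then M b y else
        if x = d then M a y + M c y else 0)
      intro w hw
      rw [sum4 hf]
      simp only [Finset.mem_insert, Finset.mem_singleton] at hw
      simp only [hf.nab, hf.nac, hf.nad, hf.nbc, hf.nbd, hf.ncd, hf.nab.symm, hf.nac.symm,
        hf.nad.symm, hf.nbc.symm, hf.nbd.symm, hf.ncd.symm, if_true, if_false]
      rcases hw with rfl | rfl | rfl | rfl
      · simp only [hf.nab, hf.nac, hf.nad, if_false, ha, hab, hac, had]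
        revert h6
        generalize M w y = A
        generalize M b y = B
        generalize M c y = C'
        generalize M d y = D
        revert A B C' D
        decide
      · simp only [if_true, hf.ba, hb, hbc, hbd]
        revert h6
        generalize M a y = A
        generalize M w y = B
        generalize M c y = C'
        generalize M d y = D
        revert A B C' D
        decide
      · simp only [hf.nbc.symm, if_true, if_false, hf.ca, hf.cb, hc, hcd]
        revert h6
        generalize M a y = A
        generalize M b y = B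
        generalize M w y = C'
        generalize M d y = D
        revert A B C' D
        decide
      · simp only [hf.nbd.symm, hf.ncd.symm, if_true, if_false, hf.da, hf.db, hf.dc, hd]
        revert h6
        generalize M a y = A
        generalize M b y = B
        generalize M c y = C'
        generalize M w y = D
        revert A B C' D
        decide
  · intro T Y hg hS y hy
    have h1 : sw M T y = 0 := zero_f C.rs hS hy
    rw [← h1]
    exact Finset.sum_congr rfl fun x _ => C.sym y x
  · intro T Y hg hS T' hg' h1 h2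
    have hT := gf C.sym hg
    have hT' := gf C.sym hg'
    have hsum : ∀ (W : Finset V) (c : V), ∑ x ∈ W, M c x = sw M W c := fun W c =>
      Finset.sum_congr rfl fun x _ => C.sym c x
    simp only [hsum] at h1 h2
    rcases mono_f C.mat C.rs hS (zf C hT) (irr_sw C hT) (sw M T') (sw_ne hT') (zf C hT')
      (irr_sw C hT') (by
        intro v hv
        rw [lap_sw C hT'.card, lap_sw C hT.card]
        rcases h2 v (by rw [hv]; exact one_ne_zero) with ⟨h3, h4⟩ | ⟨h3, h4⟩
        · rw [if_neg h4, h3, mul_zero]
        · rw [h3, mul_one]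
          by_cases h5 : v ∈ T
          · rw [if_pos h5, if_pos (h4.2 h5)]
          · rw [if_neg h5, if_neg (fun h6 => h5 (h4.1 h6))]) (fun v hv hvY => (h1 v hv hvY).1)
      with ⟨g, f, h⟩ | h
    · exact Or.inl ⟨g, sp_of_split C hT' h⟩
    · exact Or.inr h

/-- **row (B)**: the inverse of the reduced Laplacian, midpoints and bad points -/
theorem heart (hH : IsMat L H) (hR : RSides L e S) :
    ∃ M : V → V → ZMod 2, (∀ x y, M x y = M y x) ∧ (∀ x, M e x = 0) ∧
      (∀ u, u ≠ e → ∀ v, (∑ w, H u w * (M u v + M w v)) = if u = v then 1 else 0) ∧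
      Pairs M ∧ P4Split M := by
  obtain ⟨M, h0, hl⟩ := exists_inv (e := e) hH.sym (ker_zero hH hR)
  have C : Ctx L H e S M := ⟨hH, hR, h0, hl⟩
  have hm := ms C
  refine ⟨M, C.sym, C.he, ?_, hm.pairs, hm.p4split⟩
  intro u hu v
  have h1 := hl v u
  rw [if_neg hu, add_zero] at h1
  rw [← h1]
  unfold Lap
  refine Finset.sum_congr rfl fun w _ => ?_
  rw [C.sym u v, C.sym w v]

end

end Pool.Agent.H80.RS
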