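import Pool.Agent.H80.RS.Heart
import Pool.Agent.H62.Ind.P3
import Pool.Agent.H26.P3.End

set_option autoImplicit false

/-!
Rooted codes with sides (MP_a46c6f_co, full Q1): the graph is a tree.
-/

namespace Pool.Agent.H80.RS

open Pool.Agent.H98.Code Pool.Agent.H17.TR Pool.Agent.H77.Q

/-- the rooted tree theorem for codes with sides -/
theorem tree_of_sides (X : Type) [Fintype X] [DecidableEq X] (B : Submodule (ZMod 2) (X → K))
    (e : X) (S : (X → K) → Finset X → Prop) (hB : IsCode B) (hz : NoZ B) (hR : RSides B e S) :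
    (graph B).IsTree := by
  obtain ⟨H, hs, hm⟩ := exists_matrix hB hz
  have hH : IsMat B H := ⟨hs, hm⟩
  have hH' : Pool.Agent.H32.AA.IsMat B H := ⟨hs, hm⟩
  have heq : graph B = GrH H := by
    ext v w
    rw [Pool.Agent.H32.AA.adj_iff hH', hH.adj]
  rw [heq]
  obtain ⟨M, hsym, he, hinv, hp, h4⟩ := heart hH hR
  exact Pool.Agent.H26.P3.tree_end X e H M hs hsym he hinv hp
    (Pool.Agent.H62.Ind.p3 X M hsym hp h4)

end Pool.Agent.H80.RS
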